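import Pool.Agent.V7H48.VF.Line

/-! Virtual fields of norm one over `ℚ`, and the real point for unimodular families. -/

set_option autoImplicit false
open Classical

namespace Pool.Agent.V7H48.VF

open Complex Filter Topology ComplexConjugate NumberField IsDedekindDomain Asymptotics
  Pool.Agent.W401.Cheb Pool.Agent.W540.BE Pool.Agent.W353.L1 Pool.Agent.W353.NF
open Pool.Agent.W353.TP (HX sysH LL LL_tendsto)
open Pool.Agent.W353.AB (Sy syE)
open Pool.Agent.W353.EF (perm)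
open Pool.Agent.H341R2 (lam lam_tendsto sysK)
open Pool.Agent.TH322.BC
open Pool.Agent.TH322.BC.Edge (MinimalModels LSeries size HasOrder orders)
open Pool.Agent.Y722.EP (IsModular)
open Pool.Agent.X288.L2
open Pool.Agent.V7H44.HF

section
variable {K : Type} [Field K] [NumberField K] {ι : Type} [Fintype ι] (L : ι → Type)
  [∀ j, Field (L j)] [∀ j, NumberField (L j)] [∀ j, Algebra K (L j)]
  {a b : ℤ} (hab : 4 * a ^ 3 + 27 * b ^ 2 ≠ 0) (hmod : IsModular a b)

include hab hmod in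
/-- **The strict inequality for a virtual field.** -/
theorem virt_strict (hK : N4 K = 1) {τ : ℝ} (x : ι → ℝ)
    (h1 : hw τ τ * (∑ j, ∑ k, x j * x k * (cross K (L j) (L k) : ℝ)) ≤ 1)
    (h2 : hw τ τ * (∑ j, ∑ k, x j * x k * (cross K (L j) (L k) : ℝ)) < 1 ∨
      2 < |∑ j, x j * (Module.finrank K (L j) : ℝ)|)
    {V : ∀ j, HeightOneSpectrum (𝓞 (L j)) → WeierstrassCurve (𝓞 (L j))}
    (hV : ∀ j, MinimalModels (EC (L j) a b) (V j)) :
    ∃ B : ℝ, B < 1 ∧ ∀ η : ℝ, 0 < η → ∀ᶠ ε : ℝ in 𝓝[>] 0,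
      |∑ j, x j * size (V j) τ ε| ≤ B + η := by
  obtain ⟨U, hnU, hUo, hf, hU⟩ := exists_U (K := K) L
  choose σ hσ using exists_isFrob (F := K)
  have hsec := sec_min (K := K) hab hmod
  rw [hK, Nat.cast_one] at hsec
  let ψ : GK K → ℝ := fun g => ∑ j, x j * (fixn K (L j) g : ℝ)
  have hz0 := SzH.sum (T := Pool.Agent.W353.NF.TT (syE (PP K a) (QQ K b))) (Finset.univ : Finset ι)
    (fun j _ => (base_all (K := K) hab (hV j) τ).2 σ hσ) (abs_TT_le a b)
    (fun j _ => fixn_cz_le τ σ) x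
  have hz : SzH (Pool.Agent.W353.NF.TT (syE (PP K a) (QQ K b)))
      (fun v => ψ (σ v) * cz τ v) (fun ε => ∑ j, x j * size (V j) τ ε) :=
    hz0.congr (fun v => by
      simp only [ψ]
      rw [Finset.sum_mul]
      exact Finset.sum_congr rfl fun j _ => by ring) (fun ε => rfl)
  have hcl : Cls U ψ := Cls.sum (Finset.univ : Finset ι) fun j _ =>
    (fixn_cls (K := K) (F := L j) (U := U) (hU j)).const_mul (x j)
  have hav : avR U (fun q => ψ q.out ^ 2) =
      ∑ j, ∑ k, x j * x k * (cross K (L j) (L k) : ℝ) := avR_form L hU x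
  have hψ1 : ψ 1 = ∑ j, x j * (Module.finrank K (L j) : ℝ) :=
    Finset.sum_congr rfl fun j _ => by rw [fixn_one]
  refine strictT hcl hσ hz hUo hsec (abs_TT_le a b) (by rw [hav]; exact h1) ?_
  rw [hav]
  exact h2.imp id fun h => ⟨1, by rw [hψ1]; exact h⟩

include hab hmod in
/-- **Unimodular families over `ℚ`: the real point.** -/
theorem uni_real (hK : N4 K = 1) (hdet : IsUnit (gram K L).det)
    {V : ∀ j, HeightOneSpectrum (𝓞 (L j)) → WeierstrassCurve (𝓞 (L j))}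
    (hV : ∀ j, MinimalModels (EC (L j) a b) (V j)) {m : ι → ℤ}
    (hm : ∀ j, HasOrder (V j) 0 (m j)) (hm0 : m ≠ 0) :
    ∃ x : ι → ℤ, (∀ j, ∑ k, (cross K (L j) (L k) : ℤ) * x k = m j) ∧
      ∑ j, ∑ k, x j * x k * (cross K (L j) (L k) : ℤ) = 1 ∧
      |∑ j, x j * (Module.finrank K (L j) : ℤ)| ≤ 2 := by
  have h1 : (gram K L).mulVec ((gram K L)⁻¹.mulVec m) = m := by
    rw [Matrix.mulVec_mulVec, Matrix.mul_nonsing_inv _ hdet, Matrix.one_mulVec]
  set x : ι → ℤ := (gram K L)⁻¹.mulVec m with hx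
  have h2 : ∀ j, ∑ k, (cross K (L j) (L k) : ℤ) * x k = m j := fun j => congrFun h1 j
  have h2' : ∀ j, ∑ k, (cross K (L j) (L k) : ℝ) * (x k : ℝ) = (m j : ℝ) := by
    intro j
    rw [← h2 j]
    push_cast
    rfl
  have hq : ∑ j, ∑ k, x j * x k * (cross K (L j) (L k) : ℤ) = ∑ j, x j * m j := by
    refine Finset.sum_congr rfl fun j _ => ?_
    rw [← h2 j, Finset.mul_sum]
    exact Finset.sum_congr rfl fun k _ => by ring
  have hqr : ∑ j, ∑ k, (x j : ℝ) * (x k : ℝ) * (cross K (L j) (L k) : ℝ) =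
      ((∑ j, x j * m j : ℤ) : ℝ) := by
    rw [← hq]
    push_cast
    rfl
  have h3 : ((∑ j, x j * m j : ℤ) : ℝ) ≤ 1 := by
    have h4 := ellipsoid_line (K := K) L hab hmod hV {0} (fun j _ => m j) (fun j _ => (x j : ℝ))
      (fun τ hτ j => by
        rw [Finset.mem_singleton.1 hτ]
        exact hm j) (fun τ _ j => h2' j)
    rw [Finset.sum_singleton, hK] at h4
    push_cast at h4 ⊢
    exact h4
  have h5 : (0 : ℝ) ≤ ((∑ j, x j * m j : ℤ) : ℝ) := by
    rw [← hqr]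
    exact form_nonneg (K := K) L _
  have h6 : ((∑ j, x j * m j : ℤ) : ℝ) ≠ 0 := by
    intro h0
    rw [← hqr] at h0
    refine hm0 (funext fun i => ?_)
    have h7 := form_zero (K := K) L h0 i
    rw [h2' i] at h7
    have h8 : m i = 0 := by exact_mod_cast h7
    exact h8
  have h9 : (∑ j, x j * m j : ℤ) = 1 := by
    have h3' : (∑ j, x j * m j : ℤ) ≤ 1 := by exact_mod_cast h3
    have h5' : 0 ≤ (∑ j, x j * m j : ℤ) := by exact_mod_cast h5
    have h6' : (∑ j, x j * m j : ℤ) ≠ 0 := by exact_mod_cast h6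
    omega
  refine ⟨x, h2, by rw [hq, h9], ?_⟩
  by_contra hcon
  push Not at hcon
  have h10 : 2 < |∑ j, (x j : ℝ) * (Module.finrank K (L j) : ℝ)| := by
    have h11 : (2 : ℝ) < ((|∑ j, x j * (Module.finrank K (L j) : ℤ)| : ℤ) : ℝ) := by
      exact_mod_cast hcon
    rw [Int.cast_abs] at h11
    push_cast at h11
    exact h11
  have h12 : ∑ j, ∑ k, (x j : ℝ) * (x k : ℝ) * (cross K (L j) (L k) : ℝ) = 1 := by
    rw [hqr, h9]
    norm_num
  obtain ⟨B, hB, hB'⟩ := virt_strict (K := K) L hab hmod hK (τ := 0) (fun j => (x j : ℝ))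
    (by rw [h12, hw_self, if_pos rfl]; norm_num) (Or.inr h10) hV
  have h13 : Tendsto (fun ε => ∑ j, (x j : ℝ) * size (V j) 0 ε) (𝓝[>] 0)
      (𝓝 (∑ j, (x j : ℝ) * (-(m j : ℝ)))) :=
    tendsto_finsetSum _ fun j _ => (order_lim (K := K) hab (hV j) (hm j)).const_mul _
  have h14 : |∑ j, (x j : ℝ) * (-(m j : ℝ))| ≤ B :=
    le_of_forall_pos_le_add fun η hη => le_of_tendsto h13.abs (hB' η hη)
  have h15 : ∑ j, (x j : ℝ) * (-(m j : ℝ)) = -1 := by
    have h16 : ((∑ j, x j * m j : ℤ) : ℝ) = 1 := by rw [h9]; norm_num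
    push_cast at h16
    rw [← h16, ← Finset.sum_neg_distrib]
    exact Finset.sum_congr rfl fun j _ => by ring
  rw [h15, abs_neg, abs_one] at h14
  linarith

end

end Pool.Agent.V7H48.VF
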