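import Mathlib

/-! Pairs of subsets up to permutations, and a matrix. -/

set_option autoImplicit false

namespace Pool.Agent.V7H48.VF

open Finset

section
variable {Ω : Type} [Fintype Ω] [DecidableEq Ω]

/-- two pairs of sets with the same cardinalities are related by a permutation -/
theorem exists_perm {A B A' B' : Finset Ω} (hA : A.card = A'.card) (hB : B.card = B'.card)
    (hAB : (A ∩ B).card = (A' ∩ B').card) :
    ∃ π : Equiv.Perm Ω, (∀ x, π x ∈ A' ↔ x ∈ A) ∧ ∀ x, π x ∈ B' ↔ x ∈ B := by
  classical
  let c : Ω → Bool × Bool := fun x => (decide (x ∈ A), decide (x ∈ B))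
  let c' : Ω → Bool × Bool := fun x => (decide (x ∈ A'), decide (x ∈ B'))
  have e1 := card_sdiff_add_card_inter A B
  have e2 := card_sdiff_add_card_inter A' B'
  have e3 := card_sdiff_add_card_inter B A
  have e4 := card_sdiff_add_card_inter B' A'
  have e5 := card_union_add_card_inter A B
  have e6 := card_union_add_card_inter A' B'
  have e7 := card_add_card_compl (A ∪ B)
  have e8 := card_add_card_compl (A' ∪ B')
  rw [inter_comm B A] at e3
  rw [inter_comm B' A'] at e4
  have key : ∀ b : Bool × Bool, Fintype.card {x // c x = b} = Fintype.card {x // c' x = b} := by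
    have hf : ∀ (A B : Finset Ω) (b : Bool × Bool),
        Fintype.card {x // (decide (x ∈ A), decide (x ∈ B)) = b} =
        (univ.filter fun x => (decide (x ∈ A), decide (x ∈ B)) = b).card := fun A B b => by
      rw [Fintype.card_subtype]
    rintro ⟨b1, b2⟩
    rw [hf A B, hf A' B']
    rcases b1 <;> rcases b2
    · have h : ∀ A B : Finset Ω, (univ.filter fun x =>
          (decide (x ∈ A), decide (x ∈ B)) = (false, false)) = (A ∪ B)ᶜ := by
        intro A B
        ext x
        simp [Prod.ext_iff]
      rw [h, h]
      omega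
    · have h : ∀ A B : Finset Ω, (univ.filter fun x =>
          (decide (x ∈ A), decide (x ∈ B)) = (false, true)) = B \ A := by
        intro A B
        ext x
        simp [Prod.ext_iff, and_comm]
      rw [h, h]
      omega
    · have h : ∀ A B : Finset Ω, (univ.filter fun x =>
          (decide (x ∈ A), decide (x ∈ B)) = (true, false)) = A \ B := by
        intro A B
        ext x
        simp [Prod.ext_iff]
      rw [h, h]
      omega
    · have h : ∀ A B : Finset Ω, (univ.filter fun x =>
          (decide (x ∈ A), decide (x ∈ B)) = (true, true)) = A ∩ B := by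
        intro A B
        ext x
        simp [Prod.ext_iff]
      rw [h, h]
      exact hAB
  let π : Equiv.Perm Ω := (Equiv.sigmaFiberEquiv c).symm.trans
    ((Equiv.sigmaCongrRight fun b => Fintype.equivOfCardEq (key b)).trans
      (Equiv.sigmaFiberEquiv c'))
  have hπ : ∀ x, c' (π x) = c x := by
    intro x
    have h1 := ((Equiv.sigmaCongrRight fun b => Fintype.equivOfCardEq (key b))
      ((Equiv.sigmaFiberEquiv c).symm x)).2.2
    exact h1
  refine ⟨π, fun x => ?_, fun x => ?_⟩
  · have h1 := congrArg Prod.fst (hπ x)
    simpa [c, c'] using h1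
  · have h1 := congrArg Prod.snd (hπ x)
    simpa [c, c'] using h1

/-- pairs of sets with given cardinalities exist -/
theorem exists_pair {k l t : ℕ} (htk : t ≤ k) (htl : t ≤ l) (h : k + l ≤ Fintype.card Ω) :
    ∃ A B : Finset Ω, A.card = k ∧ B.card = l ∧ (A ∩ B).card = t := by
  obtain ⟨A, -, hA⟩ := exists_subset_card_eq (s := (univ : Finset Ω)) (n := k)
    (by rw [card_univ]; omega)
  obtain ⟨C, hC, hCc⟩ := exists_subset_card_eq (s := A) (n := t) (by omega)
  obtain ⟨D, hD, hDc⟩ := exists_subset_card_eq (s := Aᶜ) (n := l - t)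
    (by rw [card_compl, hA]; omega)
  have hdis : Disjoint C D := by
    rw [disjoint_left]
    intro x hx hx'
    exact (mem_compl.1 (hD hx')) (hC hx)
  refine ⟨A, C ∪ D, hA, ?_, ?_⟩
  · rw [card_union_of_disjoint hdis, hCc, hDc]
    omega
  · have h1 : A ∩ (C ∪ D) = C := by
      ext x
      rw [mem_inter, mem_union]
      constructor
      · rintro ⟨h1, h2 | h2⟩
        · exact h2
        · exact absurd h1 (mem_compl.1 (hD h2))
      · intro h1
        exact ⟨hC h1, Or.inl h1⟩
    rw [h1, hCc]

end

/-- the matrix with the entries `min(k, l) + 1` -/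
def minM (m : ℕ) : Matrix (Fin (m + 1)) (Fin (m + 1)) ℤ := fun k l => ((min k.1 l.1 + 1 : ℕ) : ℤ)

theorem minM_det (m : ℕ) : (minM m).det = 1 := by
  let U : Matrix (Fin (m + 1)) (Fin (m + 1)) ℤ := fun i k => if i ≤ k then 1 else 0
  have hU : U.det = 1 := by
    rw [Matrix.det_of_isUpperTriangular]
    · refine Finset.prod_eq_one fun i _ => ?_
      simp [U]
    · intro i j hij
      have : ¬ i ≤ j := not_le.2 hij
      simp [U, this]
  have h : minM m = U.transpose * U := by
    ext k l
    rw [Matrix.mul_apply]
    have e : ∀ i, U.transpose k i * U i l = if i ≤ min k l then 1 else 0 := by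
      intro i
      change (if i ≤ k then (1 : ℤ) else 0) * (if i ≤ l then 1 else 0) = _
      simp only [le_min_iff]
      by_cases h1 : i ≤ k <;> by_cases h2 : i ≤ l <;> simp [h1, h2]
    rw [Finset.sum_congr rfl fun i _ => e i, Finset.sum_boole]
    have e2 : (Finset.univ.filter fun i : Fin (m + 1) => i ≤ min k l) = Finset.Iic (min k l) := by
      ext i
      simp
    rw [e2, Fin.card_Iic]
    unfold minM
    have e3 : ((min k l : Fin (m + 1)) : ℕ) = min k.1 l.1 := by
      rcases le_total k l with h | h
      · rw [min_eq_left h, min_eq_left (by exact h)]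
      · rw [min_eq_right h, min_eq_right (by exact h)]
    rw [e3]
  rw [h, Matrix.det_mul, Matrix.det_transpose, hU]
  norm_num

/-- binomial coefficients grow by at least three in the first half -/
theorem choose_gap {n k : ℕ} (hn : 5 ≤ n) (hk : 1 ≤ k) (h : 2 * k ≤ n) :
    n.choose (k - 1) + 3 ≤ n.choose k := by
  obtain ⟨j, rfl⟩ : ∃ j, k = j + 1 := ⟨k - 1, by omega⟩
  rw [Nat.add_sub_cancel]
  have h1 := Nat.choose_succ_right_eq n j
  -- `choose n (j+1) * (j+1) = choose n j * (n - j)`
  rcases Nat.lt_or_ge j 2 with hj | hj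
  · interval_cases j
    · rw [Nat.choose_zero_right, Nat.choose_one_right]
      omega
    · rw [Nat.choose_one_right, Nat.choose_two_right]
      have h2 : 2 * (n + 3) ≤ n * (n - 1) := by
        obtain ⟨r, rfl⟩ : ∃ r, n = r + 5 := ⟨n - 5, by omega⟩
        have : r + 5 - 1 = r + 4 := by omega
        rw [this]
        nlinarith
      omega
  · have hmono : n.choose 2 ≤ n.choose j := by
      have : ∀ i, 2 ≤ i → i ≤ j → n.choose 2 ≤ n.choose i := by
        intro i hi
        induction i, hi using Nat.le_induction with
        | base => intro _; exact le_rfl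
        | succ i hi ih =>
          intro hij
          refine (ih (by omega)).trans (Nat.choose_le_succ_of_lt_half_left (by omega))
      exact this j hj le_rfl
    have h2 : 5 * (j + 1) ≤ n.choose 2 := by
      rw [Nat.choose_two_right]
      have h3 : 2 * (5 * (j + 1)) ≤ n * (n - 1) := by
        obtain ⟨r, rfl⟩ : ∃ r, n = r + 2 * (j + 1) := ⟨n - 2 * (j + 1), by omega⟩
        have e : r + 2 * (j + 1) - 1 = r + 2 * j + 1 := by omega
        rw [e]
        nlinarith [Nat.zero_le r, Nat.zero_le (r * r), Nat.zero_le (r * j)]
      omega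
    have h4 : n.choose j * (j + 2) ≤ n.choose (j + 1) * (j + 1) := by
      rw [h1]
      exact Nat.mul_le_mul_left _ (by omega)
    have h5 : n.choose j * (j + 1) + 5 * (j + 1) ≤ n.choose (j + 1) * (j + 1) := by
      have : n.choose j * (j + 2) = n.choose j * (j + 1) + n.choose j := by ring
      omega
    have h6 : (n.choose j + 5) * (j + 1) ≤ n.choose (j + 1) * (j + 1) := by
      rw [add_mul]
      exact h5
    have h7 := Nat.le_of_mul_le_mul_right h6 (by omega)
    omega

end Pool.Agent.V7H48.VF
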