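import Pool.Agent.V7H48.VF.Line

/-! The fields which belong to the sets of `k` embeddings exist. -/

set_option autoImplicit false
open Classical

namespace Pool.Agent.V7H48.VF

open NumberField Pool.Agent.W401.Cheb Pool.Agent.W353.NF
open Pool.Agent.W353.EF (perm)

section
variable {K F : Type} [Field K] [NumberField K] [Field F] [NumberField F] [Algebra K F]

theorem map_act_mul (A : Finset (F →ₐ[K] AlgebraicClosure K)) (σ ρ : GK K) :
    A.map (act K F (σ * ρ)).toEmbedding =
      (A.map (act K F ρ).toEmbedding).map (act K F σ).toEmbedding := by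
  rw [Finset.map_map, map_mul]
  rfl

theorem map_act_one (A : Finset (F →ₐ[K] AlgebraicClosure K)) :
    A.map (act K F 1).toEmbedding = A := by
  rw [map_one]
  exact Finset.map_refl

theorem map_act_inv (A B : Finset (F →ₐ[K] AlgebraicClosure K)) (σ ρ : GK K) :
    A.map (act K F (σ⁻¹ * ρ)).toEmbedding = B ↔
      A.map (act K F ρ).toEmbedding = B.map (act K F σ).toEmbedding := by
  rw [map_act_mul]
  constructor
  · intro h
    rw [← h, ← map_act_mul, mul_inv_cancel, map_act_one]
  · intro h
    rw [h, ← map_act_mul, inv_mul_cancel, map_act_one]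

/-- the stabiliser of a set of embeddings -/
def stab (A : Finset (F →ₐ[K] AlgebraicClosure K)) : Subgroup (GK K) where
  carrier := {σ | A.map (act K F σ).toEmbedding = A}
  one_mem' := map_act_one A
  mul_mem' := fun {σ ρ} h1 h2 => by
    change A.map (act K F (σ * ρ)).toEmbedding = A
    rw [map_act_mul, h2, h1]
  inv_mem' := fun {σ} h => by
    change A.map (act K F σ⁻¹).toEmbedding = A
    have h1 := (map_act_inv A A σ 1).2 (by rw [map_act_one]; exact h.symm)
    rwa [mul_one] at h1

theorem mem_stab (A : Finset (F →ₐ[K] AlgebraicClosure K)) (σ : GK K) :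
    σ ∈ stab A ↔ A.map (act K F σ).toEmbedding = A := Iff.rfl

theorem stab_open (A : Finset (F →ₐ[K] AlgebraicClosure K)) :
    IsOpen (stab A : Set (GK K)) := by
  refine Subgroup.isOpen_mono (H₁ := (act K F).ker) ?_ (ker_act_open K F)
  intro σ hσ
  rw [MonoidHom.mem_ker] at hσ
  rw [mem_stab, hσ]
  exact Finset.map_refl

theorem fixing_stab (A : Finset (F →ₐ[K] AlgebraicClosure K)) :
    (IntermediateField.fixedField (stab A)).fixingSubgroup = stab A :=
  InfiniteGalois.fixingSubgroup_fixedField
    ⟨stab A, Subgroup.isClosed_of_isOpen _ (stab_open A)⟩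

theorem fixed_finite (A : Finset (F →ₐ[K] AlgebraicClosure K)) :
    FiniteDimensional K (IntermediateField.fixedField (stab A)) := by
  rw [← InfiniteGalois.isOpen_iff_finite]
  have h1 := stab_open A
  rw [← fixing_stab A] at h1
  exact h1

/-- **The subset fields exist.** -/
theorem exists_subset {k : ℕ} (hk : k ≤ Module.finrank K F)
    (ht : ∀ A B : Finset (F →ₐ[K] AlgebraicClosure K), A.card = k → B.card = k →
      ∃ σ : GK K, A.map (act K F σ).toEmbedding = B) :
    ∃ (L : Type) (_ : Field L) (_ : NumberField L) (_ : Algebra K L), IsSubsetField K F L k := by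
  obtain ⟨A, -, hA⟩ := Finset.exists_subset_card_eq
    (s := (Finset.univ : Finset (F →ₐ[K] AlgebraicClosure K))) (n := k)
    (by rw [Finset.card_univ, card_emb (K := K) (F := F)]; exact hk)
  have hfd := fixed_finite A
  let L := IntermediateField.fixedField (stab A)
  have hfd' : FiniteDimensional K L := hfd
  have hnf : NumberField L := NumberField.of_module_finite K L
  refine ⟨L, inferInstance, hnf, inferInstance, ?_⟩
  have key : ∀ σ ρ : GK K, act K L σ L.val = act K L ρ L.val ↔
      A.map (act K F σ).toEmbedding = A.map (act K F ρ).toEmbedding := by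
    intro σ ρ
    rw [← map_act_inv A A ρ σ, ← mem_stab, ← fixing_stab A,
      IntermediateField.mem_fixingSubgroup_iff]
    constructor
    · intro h x hx
      have h1 : σ x = ρ x := congrArg (fun i : L →ₐ[K] AlgebraicClosure K => i ⟨x, hx⟩) h
      change ρ.symm (σ x) = x
      rw [h1]
      exact ρ.symm_apply_apply x
    · intro h
      refine AlgHom.ext fun x => ?_
      have h1 : ρ.symm (σ x.1) = x.1 := h x.1 x.2
      change σ x.1 = ρ x.1
      conv_rhs => rw [← h1]
      exact (ρ.apply_symm_apply _).symm
  have hex : ∀ i : L →ₐ[K] AlgebraicClosure K, ∃ σ : GK K, act K L σ L.val = i := fun i =>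
    act_trans K L L.val i
  choose s hs using hex
  let f : (L →ₐ[K] AlgebraicClosure K) →
      {B : Finset (F →ₐ[K] AlgebraicClosure K) // B.card = k} :=
    fun i => ⟨A.map (act K F (s i)).toEmbedding, by rw [Finset.card_map, hA]⟩
  have hf : Function.Bijective f := by
    constructor
    · intro i j h
      have h1 := congrArg Subtype.val h
      rw [← hs i, ← hs j]
      exact (key _ _).2 h1
    · rintro ⟨B, hB⟩
      obtain ⟨σ, hσ⟩ := ht A B hA hB
      refine ⟨act K L σ L.val, Subtype.ext ?_⟩
      change A.map (act K F (s (act K L σ L.val))).toEmbedding = B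
      rw [← hσ]
      exact (key _ _).1 (hs _)
  refine ⟨Equiv.ofBijective f hf, fun σ i => ?_⟩
  change A.map (act K F (s (act K L σ i))).toEmbedding =
    (A.map (act K F (s i)).toEmbedding).map (act K F σ).toEmbedding
  rw [← map_act_mul]
  refine (key _ _).1 ?_
  rw [hs, map_mul, Equiv.Perm.mul_apply, hs]

/-- **The subset fields exist** if the group is multiply transitive. -/
theorem exists_subset_of {m k : ℕ} (hk : k ≤ m) (hn : k ≤ Module.finrank K F)
    (ht : MultiplyTransitive K F m) :
    ∃ (L : Type) (_ : Field L) (_ : NumberField L) (_ : Algebra K L), IsSubsetField K F L k := by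
  refine exists_subset hn fun A B hA hB => ?_
  obtain ⟨π, hπ, -⟩ := exists_perm (A := A) (B := A) (A' := B) (B' := B) (by rw [hA, hB])
    (by rw [hA, hB]) (by rw [Finset.inter_self, Finset.inter_self, hA, hB])
  obtain ⟨σ, hσ⟩ := ht A (by rw [hA]; exact hk) π π.injective.injOn
  exact ⟨σ, map_eq_of _ hπ hσ (by rw [hA, hB])⟩

/-- the full symmetric group is multiply transitive -/
theorem transitive_of_surj (hs : Function.Surjective (perm K F)) (m : ℕ) :
    MultiplyTransitive K F m := by
  intro S _ f hf
  obtain ⟨σ, hσ⟩ := hs ((Equiv.Set.imageOfInjOn f (S : Set (F →ₐ[K] AlgebraicClosure K))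
    hf).extendSubtype)
  refine ⟨σ, fun i hi => ?_⟩
  rw [hσ]
  exact Equiv.extendSubtype_apply_of_mem _ i hi

end

end Pool.Agent.V7H48.VF
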