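import Pool.Agent.V7H44.HF.Fin
import Pool.Agent.X288.L2.Strict
import Pool.Agent.V7H48.VF.Comb

/-! The L-functions of a modular elliptic curve over arbitrary families of extensions of a number
field: the Gram inequality. -/

set_option autoImplicit false
open Classical

namespace Pool.Agent.V7H48.VF

open Complex Filter Topology ComplexConjugate NumberField IsDedekindDomain Asymptotics
  Pool.Agent.W401.Cheb Pool.Agent.W540.BE Pool.Agent.W353.L1 Pool.Agent.W353.NF
open Pool.Agent.W353.TP (HX sysH LL LL_tendsto)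
open Pool.Agent.W353.AB (Sy syE)
open Pool.Agent.W353.EF (perm)
open Pool.Agent.H341R2 (lam lam_tendsto sysK)
open Pool.Agent.TH322.BC
open Pool.Agent.TH322.BC.Edge (MinimalModels LSeries size HasOrder orders)
open Pool.Agent.Y722.EP (IsModular)
open Pool.Agent.X288.L2
open Pool.Agent.V7H44.HF

/-- Two pairs (a `K`-embedding of `F` in `K̄`, a `K`-embedding of `F'` in `K̄`) are equivalent if an
element of the Galois group maps one to the other. -/
def crossRel (K F F' : Type) [Field K] [Field F] [Algebra K F] [Field F'] [Algebra K F'] :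
    Setoid ((F →ₐ[K] AlgebraicClosure K) × (F' →ₐ[K] AlgebraicClosure K)) where
  r z w := ∃ σ : Gal(AlgebraicClosure K/K), perm K F σ z.1 = w.1 ∧ perm K F' σ z.2 = w.2
  iseqv :=
    { refl := fun z => ⟨1, by rw [map_one, map_one]; exact ⟨rfl, rfl⟩⟩
      symm := fun {z w} ⟨σ, h1, h2⟩ => ⟨σ⁻¹, by
        rw [map_inv, map_inv, ← h1, ← h2]
        exact ⟨(perm K F σ).symm_apply_apply _, (perm K F' σ).symm_apply_apply _⟩⟩
      trans := fun {x y z} ⟨σ, h1, h2⟩ ⟨ρ, h3, h4⟩ => ⟨ρ * σ, by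
        rw [map_mul, map_mul, Equiv.Perm.mul_apply, Equiv.Perm.mul_apply, h1, h2, h3, h4]
        exact ⟨rfl, rfl⟩⟩ }

/-- The number of the orbits of the Galois group on the pairs (a `K`-embedding of `F` in `K̄`, a
`K`-embedding of `F'` in `K̄`): the number of the fields in `F ⊗_K F'`. -/
noncomputable def cross (K F F' : Type) [Field K] [Field F] [Algebra K F] [Field F']
    [Algebra K F'] : ℕ :=
  Nat.card (Quotient (crossRel K F F'))

section
variable {K F F' : Type} [Field K] [NumberField K] [Field F] [NumberField F] [Algebra K F]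
  [Field F'] [NumberField F'] [Algebra K F'] {U : Subgroup (GK K)} [U.Normal] [Finite (GK K ⧸ U)]

theorem avR_cross (hF : ∀ u ∈ U, act K F u = 1) (hF' : ∀ u ∈ U, act K F' u = 1) :
    avR U (fun q => (fixn K F q.out : ℝ) * (fixn K F' q.out : ℝ)) = cross K F F' := by
  have h1 := avR_fix (U := U) (act2 (act K F) (act K F')) (fun u hu => by
    change Equiv.prodCongr (act K F u) (act K F' u) = 1
    rw [hF u hu, hF' u hu]
    rfl) (crossRel K F F') (fun x y => by
    constructor
    · rintro ⟨g, h1, h2⟩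
      exact ⟨g, Prod.ext h1 h2⟩
    · rintro ⟨g, hg⟩
      exact ⟨g, congrArg Prod.fst hg, congrArg Prod.snd hg⟩)
  have h0 : ((cross K F F' : ℕ) : ℝ) = Nat.card (Quotient (crossRel K F F')) := rfl
  rw [h0, ← h1]
  congr 1
  funext q
  have h3 := act2_card (act K F q.out) (act K F' q.out)
  have h4 : (Nat.card {z // act2 (act K F) (act K F') q.out z = z}) =
      fixn K F q.out * fixn K F' q.out := h3
  rw [h4]
  push_cast
  rfl

omit [U.Normal] [Finite (GK K ⧸ U)] in
theorem fixn_cls (hF : ∀ u ∈ U, act K F u = 1) : Cls U (fun g => (fixn K F g : ℝ)) :=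
  ⟨fun g u hu => by rw [fixn_mul_ker K F g u (hF u hu)],
    fun g ρ => by rw [fixn_conj],
    fun g => by rw [fixn_inv]⟩

theorem fixn_cz_le (τ : ℝ) (σ : HeightOneSpectrum (𝓞 K) → GK K) (v : HeightOneSpectrum (𝓞 K)) :
    |(fixn K F (σ v) : ℝ) * cz τ v| ≤ (Module.finrank ℚ F : ℝ) := by
  rw [abs_mul]
  calc _ ≤ (Module.finrank ℚ F : ℝ) * 1 := mul_le_mul (by
          rw [abs_of_nonneg (Nat.cast_nonneg _)]
          exact fixn_le (σ v)) (abs_cz _ _) (abs_nonneg _) (Nat.cast_nonneg _)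
    _ = _ := mul_one _

end

section
variable {K : Type} [Field K] [NumberField K] {ι : Type} [Fintype ι] (L : ι → Type)
  [∀ j, Field (L j)] [∀ j, NumberField (L j)] [∀ j, Algebra K (L j)]

/-- an open normal subgroup which acts trivially on all embeddings -/
theorem exists_U : ∃ U : Subgroup (GK K), U.Normal ∧ IsOpen (U : Set (GK K)) ∧
    Finite (GK K ⧸ U) ∧ ∀ j, ∀ u ∈ U, act K (L j) u = 1 := by
  refine ⟨⨅ j, (act K (L j)).ker, Subgroup.normal_iInf_normal fun j => inferInstance, ?_, ?_, ?_⟩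
  · rw [Subgroup.coe_iInf]
    exact isOpen_iInter_of_finite fun j => ker_act_open K (L j)
  · refine Subgroup.quotient_finite_of_isOpen _ ?_
    rw [Subgroup.coe_iInf]
    exact isOpen_iInter_of_finite fun j => ker_act_open K (L j)
  · intro j u hu
    rw [Subgroup.mem_iInf] at hu
    exact MonoidHom.mem_ker.1 (hu j)

/-- the Gram matrix -/
noncomputable def gram (K : Type) [Field K] {ι : Type} (L : ι → Type) [∀ j, Field (L j)]
    [∀ j, Algebra K (L j)] : Matrix ι ι ℤ := fun j k => (cross K (L j) (L k) : ℤ)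

theorem avR_form {U : Subgroup (GK K)} [U.Normal] [Finite (GK K ⧸ U)]
    (hU : ∀ j, ∀ u ∈ U, act K (L j) u = 1) (x : ι → ℝ) :
    avR U (fun q => (∑ j, x j * (fixn K (L j) q.out : ℝ)) ^ 2) =
      ∑ j, ∑ k, x j * x k * (cross K (L j) (L k) : ℝ) := by
  have e : (fun q : GK K ⧸ U => (∑ j, x j * (fixn K (L j) q.out : ℝ)) ^ 2) =
      fun q => ∑ j, ∑ k, (x j * x k) * ((fixn K (L j) q.out : ℝ) * (fixn K (L k) q.out : ℝ)) := by
    funext q
    rw [sq, Finset.sum_mul_sum]
    refine Finset.sum_congr rfl fun j _ => Finset.sum_congr rfl fun k _ => ?_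
    ring
  rw [e, avR_sum]
  refine Finset.sum_congr rfl fun j _ => ?_
  rw [avR_sum]
  refine Finset.sum_congr rfl fun k _ => ?_
  rw [avR_const_mul, avR_cross (hU j) (hU k)]

theorem form_nonneg (x : ι → ℝ) : 0 ≤ ∑ j, ∑ k, x j * x k * (cross K (L j) (L k) : ℝ) := by
  obtain ⟨U, hn, -, hf, hU⟩ := exists_U (K := K) L
  rw [← avR_form L hU x]
  have h1 := avR_mono_le U (f := fun _ => (0 : ℝ))
    (g := fun q => (∑ j, x j * (fixn K (L j) q.out : ℝ)) ^ 2) fun q => sq_nonneg _
  rwa [avR_one] at h1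

theorem cross_symm (K F F' : Type) [Field K] [NumberField K] [Field F] [NumberField F]
    [Algebra K F] [Field F'] [NumberField F'] [Algebra K F'] : cross K F F' = cross K F' F := by
  refine Nat.card_congr (Quotient.congr (Equiv.prodComm _ _) fun z w => ?_)
  constructor
  · rintro ⟨σ, h1, h2⟩
    exact ⟨σ, h2, h1⟩
  · rintro ⟨σ, h1, h2⟩
    exact ⟨σ, h2, h1⟩

theorem lin_zero {B C : ℝ} (hC : 0 ≤ C) (key : ∀ t : ℝ, 0 ≤ 2 * t * B + t ^ 2 * C) : B = 0 := by
  by_contra hne
  have h1 := key (-B / (C + 1))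
  have h2 : (0 : ℝ) < C + 1 := by linarith
  have h3 : 2 * (-B / (C + 1)) * B + (-B / (C + 1)) ^ 2 * C =
      B ^ 2 * (-(C + 2)) / (C + 1) ^ 2 := by
    field_simp
    ring
  rw [h3] at h1
  have h4 : 0 < B ^ 2 := by positivity
  have h5 : B ^ 2 * (-(C + 2)) / (C + 1) ^ 2 < 0 := by
    refine div_neg_of_neg_of_pos ?_ (by positivity)
    nlinarith
  linarith

/-- a null vector of the form is in the kernel -/
theorem form_zero {x : ι → ℝ} (h : ∑ j, ∑ k, x j * x k * (cross K (L j) (L k) : ℝ) = 0) (i : ι) :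
    ∑ k, (cross K (L i) (L k) : ℝ) * x k = 0 := by
  set B := ∑ k, (cross K (L i) (L k) : ℝ) * x k with hB
  have key : ∀ t : ℝ, 0 ≤ 2 * t * B + t ^ 2 * (cross K (L i) (L i) : ℝ) := by
    intro t
    have h1 := form_nonneg (K := K) L (fun j => x j + t * if j = i then 1 else 0)
    have e : ∑ j, ∑ k, (x j + t * if j = i then 1 else 0) * (x k + t * if k = i then 1 else 0) *
        (cross K (L j) (L k) : ℝ) = ∑ j, ∑ k, x j * x k * (cross K (L j) (L k) : ℝ) +
          (2 * t * B + t ^ 2 * (cross K (L i) (L i) : ℝ)) := by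
      have e1 : ∀ j k, (x j + t * if j = i then 1 else 0) * (x k + t * if k = i then 1 else 0) *
          (cross K (L j) (L k) : ℝ) = x j * x k * (cross K (L j) (L k) : ℝ) +
            (if j = i then t * (x k * (cross K (L j) (L k) : ℝ)) else 0) +
            (if k = i then t * (x j * (cross K (L j) (L k) : ℝ)) else 0) +
            (if j = i then (if k = i then t ^ 2 * (cross K (L j) (L k) : ℝ) else 0) else 0) := by
        intro j k
        split_ifs <;> ring
      rw [Finset.sum_congr rfl fun j _ => Finset.sum_congr rfl fun k _ => e1 j k]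
      simp only [Finset.sum_add_distrib]
      have e2 : ∑ j, ∑ k, (if j = i then t * (x k * (cross K (L j) (L k) : ℝ)) else 0) =
          t * B := by
        rw [Finset.sum_eq_single i]
        · simp only [if_true]
          rw [← Finset.mul_sum, hB]
          congr 1
          exact Finset.sum_congr rfl fun k _ => mul_comm _ _
        · intro j _ hj
          simp [hj]
        · intro h
          exact absurd (Finset.mem_univ i) h
      have e3 : ∑ j, ∑ k, (if k = i then t * (x j * (cross K (L j) (L k) : ℝ)) else 0) =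
          t * B := by
        have : ∀ j, ∑ k, (if k = i then t * (x j * (cross K (L j) (L k) : ℝ)) else 0) =
            t * ((cross K (L i) (L j) : ℝ) * x j) := by
          intro j
          rw [Finset.sum_ite_eq' Finset.univ i, if_pos (Finset.mem_univ _), cross_symm]
          ring
        rw [Finset.sum_congr rfl fun j _ => this j, ← Finset.mul_sum]
      have e4 : ∑ j, ∑ k, (if j = i then (if k = i then t ^ 2 * (cross K (L j) (L k) : ℝ)
          else 0) else 0) = t ^ 2 * (cross K (L i) (L i) : ℝ) := by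
        rw [Finset.sum_eq_single i]
        · simp only [if_true]
          rw [Finset.sum_ite_eq' Finset.univ i, if_pos (Finset.mem_univ _)]
        · intro j _ hj
          simp [hj]
        · intro h
          exact absurd (Finset.mem_univ i) h
      rw [e2, e3, e4]
      ring
    rw [e, h, zero_add] at h1
    exact h1
  exact lin_zero (Nat.cast_nonneg _) key

variable {a b : ℤ} (hab : 4 * a ^ 3 + 27 * b ^ 2 ≠ 0) (hmod : IsModular a b)

include hab hmod in
/-- **The Gram inequality** for the sizes. -/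
theorem gram_sizes {V : ∀ j, HeightOneSpectrum (𝓞 (L j)) → WeierstrassCurve (𝓞 (L j))}
    (hV : ∀ j, MinimalModels (EC (L j) a b) (V j)) (H : Finset ℝ) (hH : ∀ τ ∈ H, 0 ≤ τ)
    (c : ι → ℝ → ℝ) {η : ℝ} (hη : 0 < η) :
    ∀ᶠ ε : ℝ in 𝓝[>] 0, (∑ τ ∈ H, ∑ j, c j τ * size (V j) τ ε) ^ 2 ≤
      (N4 K : ℝ) * (∑ τ ∈ H, hw τ τ * ∑ j, ∑ k, c j τ * c k τ * (cross K (L j) (L k) : ℝ)) + η := by
  obtain ⟨U, hn, hUo, hf, hU⟩ := exists_U (K := K) L
  choose σ hσ using exists_isFrob (F := K)
  have hsec := sec_min (K := K) hab hmod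
  have h1 := gen_ineq (ι := ι × ℝ) hUo (abs_TT_le a b) hσ
    ((Finset.univ : Finset ι) ×ˢ H) (ψ := fun z g => (fixn K (L z.1) g : ℝ))
    (fun z _ => fixn_cls (hU z.1)) (fun z => z.2) (Y := fun z => size (V z.1) z.2)
    (fun z _ => (base_all (K := K) hab (hV z.1) z.2).2 σ hσ)
    (Nat.cast_nonneg _) hsec (fun z => c z.1 z.2) hη
  refine h1.mono fun ε hε => ?_
  have e1 : ∑ z ∈ (Finset.univ : Finset ι) ×ˢ H, c z.1 z.2 * size (V z.1) z.2 ε =
      ∑ τ ∈ H, ∑ j, c j τ * size (V j) τ ε := by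
    rw [Finset.sum_product_right]
  have e2 : ∑ z ∈ (Finset.univ : Finset ι) ×ˢ H, ∑ w ∈ (Finset.univ : Finset ι) ×ˢ H,
      c z.1 z.2 * c w.1 w.2 * (hw z.2 w.2 * avR U fun q =>
        (fixn K (L z.1) q.out : ℝ) * (fixn K (L w.1) q.out : ℝ)) =
      ∑ τ ∈ H, hw τ τ * ∑ j, ∑ k, c j τ * c k τ * (cross K (L j) (L k) : ℝ) := by
    rw [Finset.sum_product_right]
    refine Finset.sum_congr rfl fun τ hτ => ?_
    rw [Finset.mul_sum]
    refine Finset.sum_congr rfl fun j _ => ?_
    rw [Finset.sum_product_right, Finset.sum_eq_single τ]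
    · rw [Finset.mul_sum]
      refine Finset.sum_congr rfl fun k _ => ?_
      rw [avR_cross (hU j) (hU k)]
      ring
    · intro t ht hne
      refine Finset.sum_eq_zero fun k _ => ?_
      rw [hw_ne (hH τ hτ) (hH t ht) (Ne.symm hne)]
      ring
    · intro h
      exact absurd hτ h
  rw [e1, e2] at hε
  exact hε

include hab hmod in
/-- **The ellipsoid**: limits. -/
theorem ellipsoid {V : ∀ j, HeightOneSpectrum (𝓞 (L j)) → WeierstrassCurve (𝓞 (L j))}
    (hV : ∀ j, MinimalModels (EC (L j) a b) (V j)) (H : Finset ℝ) (hH : ∀ τ ∈ H, 0 ≤ τ)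
    (w x : ι → ℝ → ℝ)
    (hw' : ∀ τ ∈ H, ∀ j, Tendsto (size (V j) τ) (𝓝[>] 0) (𝓝 (w j τ)))
    (hx : ∀ τ ∈ H, ∀ j, ∑ k, (cross K (L j) (L k) : ℝ) * x k τ = w j τ) :
    ∑ τ ∈ H, (∑ j, x j τ * w j τ) / hw τ τ ≤ N4 K := by
  set A : ℝ := ∑ τ ∈ H, (∑ j, x j τ * w j τ) / hw τ τ with hA
  have hq : ∀ τ ∈ H, ∑ j, ∑ k, x j τ * x k τ * (cross K (L j) (L k) : ℝ) =
      ∑ j, x j τ * w j τ := by
    intro τ hτ
    refine Finset.sum_congr rfl fun j _ => ?_
    rw [← hx τ hτ j, Finset.mul_sum]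
    exact Finset.sum_congr rfl fun k _ => by ring
  have h1 : ∀ η : ℝ, 0 < η → A ^ 2 ≤ (N4 K : ℝ) * A + η := by
    intro η hη
    have h2 := gram_sizes (K := K) L hab hmod hV H hH (fun j τ => x j τ / hw τ τ) hη
    have e1 : ∑ τ ∈ H, hw τ τ * ∑ j, ∑ k, x j τ / hw τ τ * (x k τ / hw τ τ) *
        (cross K (L j) (L k) : ℝ) = A := by
      rw [hA]
      refine Finset.sum_congr rfl fun τ hτ => ?_
      rw [← hq τ hτ]
      have h0 : hw τ τ ≠ 0 := (hw_self_pos τ).ne'
      have e2 : ∑ j, ∑ k, x j τ / hw τ τ * (x k τ / hw τ τ) * (cross K (L j) (L k) : ℝ) =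
          (∑ j, ∑ k, x j τ * x k τ * (cross K (L j) (L k) : ℝ)) / (hw τ τ) ^ 2 := by
        rw [Finset.sum_div]
        refine Finset.sum_congr rfl fun j _ => ?_
        rw [Finset.sum_div]
        refine Finset.sum_congr rfl fun k _ => ?_
        field_simp
      rw [e2]
      field_simp
    rw [e1] at h2
    have h3 : Tendsto (fun ε => (∑ τ ∈ H, ∑ j, x j τ / hw τ τ * size (V j) τ ε) ^ 2) (𝓝[>] 0)
        (𝓝 (A ^ 2)) := by
      have e3 : A = ∑ τ ∈ H, ∑ j, x j τ / hw τ τ * w j τ := by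
        rw [hA]
        refine Finset.sum_congr rfl fun τ _ => ?_
        rw [Finset.sum_div]
        exact Finset.sum_congr rfl fun j _ => by ring
      rw [e3]
      exact (tendsto_finsetSum _ fun τ hτ => tendsto_finsetSum _ fun j _ =>
        (hw' τ hτ j).const_mul _).pow 2
    exact le_of_tendsto h3 h2
  have h4 : A ^ 2 ≤ (N4 K : ℝ) * A := le_of_forall_pos_le_add h1
  by_contra h5
  push Not at h5
  have h6 : (0 : ℝ) ≤ N4 K := Nat.cast_nonneg _
  nlinarith

end

end Pool.Agent.V7H48.VF
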