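import Pool.Agent.V7H48.VF.Sub

/-! The Gram inequality on the whole line. -/

set_option autoImplicit false
open Classical

namespace Pool.Agent.V7H48.VF

open Complex Filter Topology ComplexConjugate NumberField IsDedekindDomain Asymptotics
  Pool.Agent.W401.Cheb Pool.Agent.W540.BE Pool.Agent.W353.L1 Pool.Agent.W353.NF
open Pool.Agent.W353.TP (HX sysH LL LL_tendsto)
open Pool.Agent.W353.AB (Sy syE)
open Pool.Agent.W353.EF (perm)
open Pool.Agent.H341R2 (lam lam_tendsto sysK)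
open Pool.Agent.TH322.BC
open Pool.Agent.TH322.BC.Edge (MinimalModels LSeries size HasOrder orders)
open Pool.Agent.Y722.EP (IsModular)
open Pool.Agent.X288.L2
open Pool.Agent.V7H44.HF

section
variable {K : Type} [Field K] [NumberField K] {ι : Type} [Fintype ι] (L : ι → Type)
  [∀ j, Field (L j)] [∀ j, NumberField (L j)] [∀ j, Algebra K (L j)]

/-- the Cauchy-Schwarz inequality for the form -/
theorem form_sum (S : Finset ℝ) (u : ι → ℝ → ℝ) :
    ∑ j, ∑ k, (∑ τ ∈ S, u j τ) * (∑ τ ∈ S, u k τ) * (cross K (L j) (L k) : ℝ) ≤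
      (S.card : ℝ) * ∑ τ ∈ S, ∑ j, ∑ k, u j τ * u k τ * (cross K (L j) (L k) : ℝ) := by
  obtain ⟨U, hn, -, hf, hU⟩ := exists_U (K := K) L
  rw [← avR_form L hU fun j => ∑ τ ∈ S, u j τ]
  rw [Finset.sum_congr rfl fun τ _ => (avR_form L hU fun j => u j τ).symm, ← avR_sum,
    ← avR_const_mul]
  refine avR_mono_le U fun q => ?_
  have e : ∑ j, (∑ τ ∈ S, u j τ) * (fixn K (L j) q.out : ℝ) =
      ∑ τ ∈ S, ∑ j, u j τ * (fixn K (L j) q.out : ℝ) := by
    rw [Finset.sum_comm]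
    exact Finset.sum_congr rfl fun j _ => by rw [Finset.sum_mul]
  rw [e]
  exact sq_sum_le_card_mul_sum_sq

variable {a b : ℤ} (hab : 4 * a ^ 3 + 27 * b ^ 2 ≠ 0) (hmod : IsModular a b)

include hab hmod in
/-- **The Gram inequality**, whole line. -/
theorem gram_line {V : ∀ j, HeightOneSpectrum (𝓞 (L j)) → WeierstrassCurve (𝓞 (L j))}
    (hV : ∀ j, MinimalModels (EC (L j) a b) (V j)) (T : Finset ℝ)
    (c : ι → ℝ → ℝ) {η : ℝ} (hη : 0 < η) :
    ∀ᶠ ε : ℝ in 𝓝[>] 0, (∑ τ ∈ T, ∑ j, c j τ * size (V j) τ ε) ^ 2 ≤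
      (N4 K : ℝ) * (∑ τ ∈ T, ∑ j, ∑ k, c j τ * c k τ * (cross K (L j) (L k) : ℝ)) + η := by
  set H : Finset ℝ := T.image fun τ => |τ| with hH
  have hmaps : ∀ τ ∈ T, |τ| ∈ H := fun τ hτ => Finset.mem_image_of_mem _ hτ
  have h1 := gram_sizes (K := K) L hab hmod hV H (fun t ht => by
    obtain ⟨τ, -, rfl⟩ := Finset.mem_image.1 ht
    exact abs_nonneg τ) (fun j t => ∑ τ ∈ T with |τ| = t, c j τ) hη
  refine h1.mono fun ε hε => ?_
  have e1 : ∑ t ∈ H, ∑ j, (∑ τ ∈ T with |τ| = t, c j τ) * size (V j) t ε =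
      ∑ τ ∈ T, ∑ j, c j τ * size (V j) τ ε := by
    rw [← Finset.sum_fiberwise_of_maps_to hmaps]
    refine Finset.sum_congr rfl fun t _ => ?_
    rw [Finset.sum_comm]
    refine Finset.sum_congr rfl fun j _ => ?_
    rw [Finset.sum_mul]
    refine Finset.sum_congr rfl fun τ hτ => ?_
    rw [← (Finset.mem_filter.1 hτ).2, size_abs]
  rw [e1] at hε
  refine hε.trans (add_le_add (mul_le_mul_of_nonneg_left ?_ (Nat.cast_nonneg _)) le_rfl)
  rw [← Finset.sum_fiberwise_of_maps_to hmaps]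
  refine Finset.sum_le_sum fun t _ => ?_
  have h2 := form_sum (K := K) L (T.filter fun τ => |τ| = t) c
  have h3 := card_abs_le T t
  have h4 : 0 ≤ ∑ τ ∈ T with |τ| = t, ∑ j, ∑ k, c j τ * c k τ * (cross K (L j) (L k) : ℝ) :=
    Finset.sum_nonneg fun τ _ => form_nonneg (K := K) L _
  calc _ ≤ hw t t * ((((T.filter fun τ => |τ| = t).card : ℕ) : ℝ) *
        ∑ τ ∈ T with |τ| = t, ∑ j, ∑ k, c j τ * c k τ * (cross K (L j) (L k) : ℝ)) :=
        mul_le_mul_of_nonneg_left h2 (hw_self_pos t).le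
    _ ≤ hw t t * ((hw t t)⁻¹ *
        ∑ τ ∈ T with |τ| = t, ∑ j, ∑ k, c j τ * c k τ * (cross K (L j) (L k) : ℝ)) :=
        mul_le_mul_of_nonneg_left (mul_le_mul_of_nonneg_right h3 h4) (hw_self_pos t).le
    _ = _ := by
        rw [← mul_assoc, mul_inv_cancel₀ (hw_self_pos t).ne', one_mul]

include hab hmod in
/-- **The ellipsoid**, whole line. -/
theorem ellipsoid_line {V : ∀ j, HeightOneSpectrum (𝓞 (L j)) → WeierstrassCurve (𝓞 (L j))}
    (hV : ∀ j, MinimalModels (EC (L j) a b) (V j)) (T : Finset ℝ) (m : ι → ℝ → ℤ)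
    (x : ι → ℝ → ℝ) (hm : ∀ τ ∈ T, ∀ j, HasOrder (V j) τ (m j τ))
    (hx : ∀ τ ∈ T, ∀ j, ∑ k, (cross K (L j) (L k) : ℝ) * x k τ = m j τ) :
    ∑ τ ∈ T, ∑ j, x j τ * (m j τ : ℝ) ≤ N4 K := by
  set A : ℝ := ∑ τ ∈ T, ∑ j, x j τ * (m j τ : ℝ) with hA
  have h1 : ∀ η : ℝ, 0 < η → A ^ 2 ≤ (N4 K : ℝ) * A + η := by
    intro η hη
    have h2 := gram_line (K := K) L hab hmod hV T x hη
    have e1 : ∑ τ ∈ T, ∑ j, ∑ k, x j τ * x k τ * (cross K (L j) (L k) : ℝ) = A := by
      rw [hA]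
      refine Finset.sum_congr rfl fun τ hτ => ?_
      exact (form_eq (K := K) L (x := fun j => x j τ) (m := fun j => (m j τ : ℝ)) (hx τ hτ)).symm
    rw [e1] at h2
    have h3 : Tendsto (fun ε => (∑ τ ∈ T, ∑ j, x j τ * size (V j) τ ε) ^ 2) (𝓝[>] 0)
        (𝓝 (A ^ 2)) := by
      have e3 : A ^ 2 = (∑ τ ∈ T, ∑ j, x j τ * (-(m j τ : ℝ))) ^ 2 := by
        have e4 : ∑ τ ∈ T, ∑ j, x j τ * (-(m j τ : ℝ)) = -A := by
          rw [hA, ← Finset.sum_neg_distrib]
          refine Finset.sum_congr rfl fun τ _ => ?_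
          rw [← Finset.sum_neg_distrib]
          exact Finset.sum_congr rfl fun j _ => by ring
        rw [e4, neg_sq]
      rw [e3]
      exact (tendsto_finsetSum _ fun τ hτ => tendsto_finsetSum _ fun j _ =>
        (order_lim (K := K) hab (hV j) (hm τ hτ j)).const_mul _).pow 2
    exact le_of_tendsto h3 h2
  have h4 : A ^ 2 ≤ (N4 K : ℝ) * A := le_of_forall_pos_le_add h1
  by_contra h5
  push Not at h5
  have h6 : (0 : ℝ) ≤ N4 K := Nat.cast_nonneg _
  nlinarith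

end

section
variable {K : Type} [Field K] [NumberField K]
  {m : ℕ} (Lk : Fin (m + 1) → Type) [∀ k, Field (Lk k)]
  [∀ k, NumberField (Lk k)] [∀ k, Algebra K (Lk k)]
  (hc : ∀ k l, cross K (Lk k) (Lk l) = min k.1 l.1 + 1)
  {a b : ℤ} (hab : 4 * a ^ 3 + 27 * b ^ 2 ≠ 0) (hmod : IsModular a b)

omit [NumberField K] [∀ k, NumberField (Lk k)] in
include hc in
theorem chain_det : (gram K Lk).det = 1 := by
  have h1 : gram K Lk = minM m := by
    ext k l
    unfold gram minM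
    rw [hc k l]
  rw [h1]
  convert minM_det m

include hc hab hmod in
/-- **Chains**: the orders. -/
theorem chain_orders {V : ∀ j, HeightOneSpectrum (𝓞 (Lk j)) → WeierstrassCurve (𝓞 (Lk j))}
    (hV : ∀ j, MinimalModels (EC (Lk j) a b) (V j)) (T : Finset ℝ) (n : Fin (m + 1) → ℝ → ℤ)
    (hm : ∀ τ ∈ T, ∀ j, HasOrder (V j) τ (n j τ)) :
    ∑ τ ∈ T, ((n 0 τ : ℝ) ^ 2 + ∑ k : Fin m, ((n k.succ τ : ℝ) - n k.castSucc τ) ^ 2) ≤
      N4 K := by
  choose x hx1 hx2 using fun τ : ℝ => exists_solution m fun k => (n k τ : ℝ)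
  have h1 := ellipsoid_line (K := K) Lk hab hmod hV T n (fun k τ => x τ k) hm
    (fun τ _ j => by
      rw [← hx1 τ j]
      refine Finset.sum_congr rfl fun l _ => ?_
      rw [hc j l])
  refine le_trans (le_of_eq (Finset.sum_congr rfl fun τ _ => ?_)) h1
  exact (hx2 τ).symm

include hc hab hmod in
/-- **Chains over `ℚ`**: neighbours have the same orders. -/
theorem chain_strict (hK : N4 K = 1) {τ : ℝ} (k : Fin m)
    (h5 : τ ≠ 0 ∨ Module.finrank K (Lk k.castSucc) + 3 ≤ Module.finrank K (Lk k.succ))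
    {V : ∀ j, HeightOneSpectrum (𝓞 (Lk j)) → WeierstrassCurve (𝓞 (Lk j))}
    (hV : ∀ j, MinimalModels (EC (Lk j) a b) (V j)) {n n' : ℤ}
    (hn' : HasOrder (V k.succ) τ n') (hn0 : HasOrder (V k.castSucc) τ n) : n' = n := by
  obtain ⟨U, hnU, hUo, hf, hU⟩ := exists_U (K := K) Lk
  choose σ hσ using exists_isFrob (F := K)
  have hsec := sec_min (K := K) hab hmod
  rw [hK, Nat.cast_one] at hsec
  have z1 := (base_all (K := K) hab (hV k.succ) τ).2 σ hσ
  have z0 := (base_all (K := K) hab (hV k.castSucc) τ).2 σ hσ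
  have hb0 : ∀ v, |(-1 : ℝ) * ((fixn K (Lk k.castSucc) (σ v) : ℝ) * cz τ v)| ≤
      (Module.finrank ℚ (Lk k.castSucc) : ℝ) := by
    intro v
    rw [abs_mul, abs_neg, abs_one, one_mul]
    exact fixn_cz_le τ σ v
  let ψ : GK K → ℝ := fun g => (fixn K (Lk k.succ) g : ℝ) + (-1) * (fixn K (Lk k.castSucc) g : ℝ)
  have hz : SzH (Pool.Agent.W353.NF.TT (syE (PP K a) (QQ K b)))
      (fun v => ψ (σ v) * cz τ v)
      (fun ε => size (V k.succ) τ ε + (-1) * size (V k.castSucc) τ ε) :=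
    (z1.add (z0.const_mul (-1)) (abs_TT_le a b) (fixn_cz_le τ σ) hb0).congr
      (fun v => by
        simp only [ψ]
        ring) (fun ε => rfl)
  have hcl1 := fixn_cls (K := K) (F := Lk k.succ) (U := U) (hU k.succ)
  have hcl0 := fixn_cls (K := K) (F := Lk k.castSucc) (U := U) (hU k.castSucc)
  have hcl : Cls U ψ :=
    { hU := fun g u hu => by simp only [ψ]; rw [hcl1.hU g u hu, hcl0.hU g u hu]
      hc := fun g ρ => by simp only [ψ]; rw [hcl1.hc g ρ, hcl0.hc g ρ]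
      hi := fun g => by simp only [ψ]; rw [hcl1.hi g, hcl0.hi g] }
  have hav : avR U (fun q => ψ q.out ^ 2) = 1 := by
    have e : (fun q : GK K ⧸ U => ψ q.out ^ 2) = fun q =>
        (fixn K (Lk k.succ) q.out : ℝ) * (fixn K (Lk k.succ) q.out : ℝ) +
        ((-2) * ((fixn K (Lk k.succ) q.out : ℝ) * (fixn K (Lk k.castSucc) q.out : ℝ)) +
          (fixn K (Lk k.castSucc) q.out : ℝ) * (fixn K (Lk k.castSucc) q.out : ℝ)) := by
      funext q
      simp only [ψ]
      ring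
    rw [e, avR_add, avR_add, avR_const_mul, avR_cross (hU _) (hU _), avR_cross (hU _) (hU _),
      avR_cross (hU _) (hU _)]
    rw [hc k.succ k.succ, hc k.succ k.castSucc, hc k.castSucc k.castSucc]
    have e1 : min (k.succ : Fin (m + 1)).1 (k.succ : Fin (m + 1)).1 = k.1 + 1 := by simp
    have e2 : min (k.succ : Fin (m + 1)).1 (k.castSucc : Fin (m + 1)).1 = k.1 := by simp
    have e3 : min (k.castSucc : Fin (m + 1)).1 (k.castSucc : Fin (m + 1)).1 = k.1 := by simp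
    rw [e1, e2, e3]
    push_cast
    ring
  have hψ1 : Module.finrank K (Lk k.castSucc) + 3 ≤ Module.finrank K (Lk k.succ) →
      2 < |ψ 1| := by
    intro h5
    simp only [ψ]
    rw [fixn_one, fixn_one]
    have h7 : ((Module.finrank K (Lk k.castSucc) : ℕ) : ℝ) + 3 ≤
        ((Module.finrank K (Lk k.succ) : ℕ) : ℝ) := by exact_mod_cast h5
    refine lt_of_lt_of_le ?_ (le_abs_self _)
    linarith
  obtain ⟨B, hB, hB'⟩ := strictT hcl hσ hz hUo hsec (abs_TT_le a b)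
    (by
      rw [hav, hw_self]
      split_ifs <;> norm_num)
    (by
      rcases h5 with h5 | h5
      · left
        rw [hav, hw_self, if_neg h5]
        norm_num
      · exact Or.inr ⟨1, hψ1 h5⟩)
  have h8 : Tendsto (fun ε => size (V k.succ) τ ε + (-1) * size (V k.castSucc) τ ε) (𝓝[>] 0)
      (𝓝 (-(n' : ℝ) + (-1) * (-(n : ℝ)))) :=
    (order_lim (K := K) hab (hV k.succ) hn').add
      ((order_lim (K := K) hab (hV k.castSucc) hn0).const_mul _)
  have h9 : |-(n' : ℝ) + (-1) * (-(n : ℝ))| ≤ B :=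
    le_of_forall_pos_le_add fun η hη => le_of_tendsto h8.abs (hB' η hη)
  have h10 : |((n - n' : ℤ) : ℝ)| < 1 := by
    have e : -(n' : ℝ) + (-1) * (-(n : ℝ)) = ((n - n' : ℤ) : ℝ) := by
      push_cast
      ring
    rw [← e]
    linarith
  have h11 : |(n - n' : ℤ)| < 1 := by exact_mod_cast h10
  have h12 := Int.abs_lt_one_iff.1 h11
  omega

end

section
variable {K F : Type} [Field K] [NumberField K] [Field F] [NumberField F] [Algebra K F]
  {m : ℕ} (Lk : Fin (m + 1) → Type) [∀ k, Field (Lk k)]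
  [∀ k, NumberField (Lk k)] [∀ k, Algebra K (Lk k)]
  (hL : ∀ k, IsSubsetField K F (Lk k) k.1) (hn : 2 * m ≤ Module.finrank K F)

include hL hn in
/-- the degrees of the subset fields -/
theorem subset_gap (h5 : 5 ≤ Module.finrank K F) (k : Fin m) :
    Module.finrank K (Lk k.castSucc) + 3 ≤ Module.finrank K (Lk k.succ) := by
  rw [finrank_subset (hL k.succ), finrank_subset (hL k.castSucc)]
  have e1 : (k.succ : Fin (m + 1)).1 = k.1 + 1 := rfl
  have e2 : (k.castSucc : Fin (m + 1)).1 = k.1 := rfl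
  rw [e1, e2]
  have h6 := choose_gap (n := Module.finrank K F) (k := k.1 + 1) h5 (by omega) (by
    have := k.2
    omega)
  rw [Nat.add_sub_cancel] at h6
  exact h6

end

end Pool.Agent.V7H48.VF
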