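import Pool.Agent.V7H48.VF.Uni

/-! The fields which belong to the sets of `k` embeddings of a field. -/

set_option autoImplicit false
open Classical

namespace Pool.Agent.V7H48.VF

open Complex Filter Topology ComplexConjugate NumberField IsDedekindDomain Asymptotics
  Pool.Agent.W401.Cheb Pool.Agent.W540.BE Pool.Agent.W353.L1 Pool.Agent.W353.NF
open Pool.Agent.W353.EF (perm)
open Pool.Agent.TH322.BC
open Pool.Agent.TH322.BC.Edge (MinimalModels LSeries size HasOrder orders)
open Pool.Agent.Y722.EP (IsModular)
open Pool.Agent.X288.L2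
open Pool.Agent.V7H44.HF

/-- Every injective map on at most `m` embeddings of `F` over `K` in `K̄` is given by an element of
the Galois group of `K`. -/
def MultiplyTransitive (K F : Type) [Field K] [Field F] [Algebra K F] (m : ℕ) : Prop :=
  ∀ S : Finset (F →ₐ[K] AlgebraicClosure K), S.card ≤ m →
    ∀ f : (F →ₐ[K] AlgebraicClosure K) → (F →ₐ[K] AlgebraicClosure K), Set.InjOn f S →
      ∃ σ : Gal(AlgebraicClosure K/K), ∀ i ∈ S, perm K F σ i = f i

/-- The embeddings of `L` over `K` in `K̄` correspond to the sets of `k` embeddings of `F`, and the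
correspondence respects the Galois group of `K`. -/
def IsSubsetField (K F L : Type) [Field K] [Field F] [Algebra K F] [Field L] [Algebra K L]
    (k : ℕ) : Prop :=
  ∃ e : (L →ₐ[K] AlgebraicClosure K) ≃ {A : Finset (F →ₐ[K] AlgebraicClosure K) // A.card = k},
    ∀ (σ : Gal(AlgebraicClosure K/K)) (i : L →ₐ[K] AlgebraicClosure K),
      (e (perm K L σ i)).1 = (e i).1.map (perm K F σ).toEmbedding

section
variable {K F L L' : Type} [Field K] [NumberField K] [Field F] [NumberField F] [Algebra K F]
  [Field L] [NumberField L] [Algebra K L] [Field L'] [NumberField L'] [Algebra K L']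

theorem card_emb : Fintype.card (F →ₐ[K] AlgebraicClosure K) = Module.finrank K F :=
  AlgHom.card K F (AlgebraicClosure K)

theorem finrank_subset {k : ℕ} (h : IsSubsetField K F L k) :
    Module.finrank K L = (Module.finrank K F).choose k := by
  obtain ⟨e, -⟩ := h
  rw [← card_emb (K := K) (F := L), Fintype.card_congr e, ← card_emb (K := K) (F := F)]
  rw [Fintype.card_subtype]
  have h1 : (Finset.univ.filter fun A : Finset (F →ₐ[K] AlgebraicClosure K) => A.card = k) =
      Finset.powersetCard k Finset.univ := by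
    ext A
    simp [Finset.mem_powersetCard]
  rw [h1, Finset.card_powersetCard, Finset.card_univ]

theorem map_eq_of {Ω : Type} {π : Equiv.Perm Ω} {A A' : Finset Ω} (ρ : Equiv.Perm Ω)
    (h : ∀ x, π x ∈ A' ↔ x ∈ A) (hρ : ∀ x ∈ A, ρ x = π x) (hc : A.card = A'.card) :
    A.map ρ.toEmbedding = A' := by
  refine Finset.eq_of_subset_of_card_le ?_ (by rw [Finset.card_map, hc])
  intro y hy
  obtain ⟨x, hx, rfl⟩ := Finset.mem_map.1 hy
  rw [Equiv.coe_toEmbedding, hρ x hx]
  exact (h x).2 hx

theorem cross_subset {k l m : ℕ} (hL : IsSubsetField K F L k) (hL' : IsSubsetField K F L' l)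
    (hk : k ≤ m) (hl : l ≤ m) (hn : 2 * m ≤ Module.finrank K F)
    (ht : MultiplyTransitive K F (2 * m)) : cross K L L' = min k l + 1 := by
  obtain ⟨e, he⟩ := hL
  obtain ⟨e', he'⟩ := hL'
  let f : Quotient (crossRel K L L') → Fin (min k l + 1) :=
    Quotient.lift (fun z => ⟨((e z.1).1 ∩ (e' z.2).1).card, by
      have h1 := Finset.card_le_card (Finset.inter_subset_left (s₁ := (e z.1).1) (s₂ := (e' z.2).1))
      have h2 := Finset.card_le_card (Finset.inter_subset_right (s₁ := (e z.1).1) (s₂ := (e' z.2).1))
      rw [(e z.1).2] at h1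
      rw [(e' z.2).2] at h2
      omega⟩) (by
      rintro ⟨i, j⟩ ⟨i', j'⟩ ⟨σ, h1, h2⟩
      refine Fin.ext ?_
      change ((e i).1 ∩ (e' j).1).card = ((e i').1 ∩ (e' j').1).card
      have h3 : i' = perm K L σ i := h1.symm
      have h4 : j' = perm K L' σ j := h2.symm
      rw [h3, h4, he, he', ← Finset.map_inter, Finset.card_map])
  have hf : Function.Bijective f := by
    constructor
    · intro x y hxy
      induction x using Quotient.inductionOn with
      | h z =>
      induction y using Quotient.inductionOn with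
      | h w =>
      obtain ⟨i, j⟩ := z
      obtain ⟨i', j'⟩ := w
      have h1 : ((e i).1 ∩ (e' j).1).card = ((e i').1 ∩ (e' j').1).card := congrArg Fin.val hxy
      have hc1 : (e i).1.card = (e i').1.card := by rw [(e i).2, (e i').2]
      have hc2 : (e' j).1.card = (e' j').1.card := by rw [(e' j).2, (e' j').2]
      obtain ⟨π, hπ1, hπ2⟩ := exists_perm hc1 hc2 h1
      obtain ⟨σ, hσ⟩ := ht ((e i).1 ∪ (e' j).1) (by
        refine (Finset.card_union_le _ _).trans ?_
        rw [(e i).2, (e' j).2]
        omega) π π.injective.injOn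
      refine Quotient.sound ⟨σ, ?_, ?_⟩
      · refine e.injective (Subtype.ext ?_)
        rw [he]
        exact map_eq_of _ hπ1 (fun x hx => hσ x (Finset.mem_union_left _ hx)) hc1
      · refine e'.injective (Subtype.ext ?_)
        rw [he']
        exact map_eq_of _ hπ2 (fun x hx => hσ x (Finset.mem_union_right _ hx)) hc2
    · intro t
      obtain ⟨A, B, hA, hB, hAB⟩ := exists_pair (Ω := F →ₐ[K] AlgebraicClosure K) (k := k) (l := l)
        (t := t.1) (by have := t.2; omega) (by have := t.2; omega) (by
          rw [card_emb (K := K) (F := F)]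
          omega)
      refine ⟨Quotient.mk _ (e.symm ⟨A, hA⟩, e'.symm ⟨B, hB⟩), Fin.ext ?_⟩
      change ((e (e.symm ⟨A, hA⟩)).1 ∩ (e' (e'.symm ⟨B, hB⟩)).1).card = t.1
      rw [Equiv.apply_symm_apply, Equiv.apply_symm_apply]
      exact hAB
  unfold cross
  rw [Nat.card_congr (Equiv.ofBijective f hf), Nat.card_eq_fintype_card, Fintype.card_fin]

theorem gram_subset {m : ℕ} (Lk : Fin (m + 1) → Type) [∀ k, Field (Lk k)]
    [∀ k, NumberField (Lk k)] [∀ k, Algebra K (Lk k)]
    (hL : ∀ k, IsSubsetField K F (Lk k) k.1) (hn : 2 * m ≤ Module.finrank K F)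
    (ht : MultiplyTransitive K F (2 * m)) : gram K Lk = minM m := by
  ext k l
  unfold gram minM
  rw [cross_subset (hL k) (hL l) (Nat.lt_succ_iff.1 k.2) (Nat.lt_succ_iff.1 l.2) hn ht]

end

/-- the differences of a vector -/
theorem exists_solution (m : ℕ) (y : Fin (m + 1) → ℝ) :
    ∃ x : Fin (m + 1) → ℝ, (∀ k, ∑ l, ((min k.1 l.1 + 1 : ℕ) : ℝ) * x l = y k) ∧
      ∑ k, x k * y k = y 0 ^ 2 + ∑ k : Fin m, (y k.succ - y k.castSucc) ^ 2 := by
  let d : Fin (m + 1) → ℝ := Fin.cons (y 0) fun k : Fin m => y k.succ - y k.castSucc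
  let U : Matrix (Fin (m + 1)) (Fin (m + 1)) ℝ := fun i k => if i ≤ k then 1 else 0
  have hU : U.det = 1 := by
    rw [Matrix.det_of_isUpperTriangular]
    · refine Finset.prod_eq_one fun i _ => ?_
      simp [U]
    · intro i j hij
      have : ¬ i ≤ j := not_le.2 hij
      simp [U, this]
  have hUu : IsUnit U.det := by rw [hU]; exact isUnit_one
  have hd : ∀ k, ∑ i, (if i ≤ k then d i else 0) = y k := by
    intro k
    induction k using Fin.induction with
    | zero =>
      rw [Finset.sum_eq_single 0]
      · simp [d]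
      · intro i _ hi
        rw [if_neg]
        intro h
        exact hi (Fin.le_zero_iff.1 h)
      · intro h
        exact absurd (Finset.mem_univ _) h
    | succ k ih =>
      have e1 : ∀ i : Fin (m + 1), (if i ≤ k.succ then d i else 0) =
          (if i ≤ k.castSucc then d i else 0) + if i = k.succ then d i else 0 := by
        intro i
        by_cases h1 : i ≤ k.castSucc
        · have h2 : i ≤ k.succ := h1.trans (Fin.castSucc_lt_succ).le
          have h3 : i ≠ k.succ := by
            intro h
            rw [h] at h1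
            exact absurd h1 (not_le.2 (Fin.castSucc_lt_succ))
          rw [if_pos h1, if_pos h2, if_neg h3, add_zero]
        · rw [if_neg h1, zero_add]
          by_cases h2 : i = k.succ
          · rw [if_pos h2, if_pos (le_of_eq h2)]
          · rw [if_neg h2, if_neg]
            intro h3
            have h4 : i < k.succ := lt_of_le_of_ne h3 h2
            have h5 : i.1 < k.1 + 1 := h4
            exact h1 (Nat.lt_succ_iff.1 h5)
      rw [Finset.sum_congr rfl fun i _ => e1 i, Finset.sum_add_distrib, ih,
        Finset.sum_ite_eq' Finset.univ k.succ, if_pos (Finset.mem_univ _)]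
      simp [d]
  have h1 : U.mulVec (U⁻¹.mulVec d) = d := by
    rw [Matrix.mulVec_mulVec, Matrix.mul_nonsing_inv _ hUu, Matrix.one_mulVec]
  set x : Fin (m + 1) → ℝ := U⁻¹.mulVec d with hx
  have hUd : U.transpose.mulVec d = y := by
    funext k
    rw [← hd k]
    change ∑ i, U.transpose k i * d i = _
    refine Finset.sum_congr rfl fun i _ => ?_
    change (if i ≤ k then (1 : ℝ) else 0) * d i = _
    rw [ite_mul, one_mul, zero_mul]
  have hR : ∀ k l : Fin (m + 1), ((min k.1 l.1 + 1 : ℕ) : ℝ) = (U.transpose * U) k l := by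
    intro k l
    rw [Matrix.mul_apply]
    have e : ∀ i, U.transpose k i * U i l = if i ≤ min k l then 1 else 0 := by
      intro i
      change (if i ≤ k then (1 : ℝ) else 0) * (if i ≤ l then 1 else 0) = _
      simp only [le_min_iff]
      by_cases h1 : i ≤ k <;> by_cases h2 : i ≤ l <;> simp [h1, h2]
    rw [Finset.sum_congr rfl fun i _ => e i, Finset.sum_boole]
    have e2 : (Finset.univ.filter fun i : Fin (m + 1) => i ≤ min k l) = Finset.Iic (min k l) := by
      ext i
      simp
    rw [e2, Fin.card_Iic]
    have e3 : ((min k l : Fin (m + 1)) : ℕ) = min k.1 l.1 := by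
      rcases le_total k l with h | h
      · rw [min_eq_left h, min_eq_left (by exact h)]
      · rw [min_eq_right h, min_eq_right (by exact h)]
    rw [e3]
  refine ⟨x, fun k => ?_, ?_⟩
  · have h2 : (U.transpose * U).mulVec x = y := by
      rw [← Matrix.mulVec_mulVec, h1, hUd]
    have h3 : ∑ l, (U.transpose * U) k l * x l = y k := congrFun h2 k
    rw [← h3]
    exact Finset.sum_congr rfl fun l _ => by rw [hR k l]
  · have h4 : ∑ k, x k * y k = ∑ k, d k * d k := by
      change x ⬝ᵥ y = d ⬝ᵥ d
      conv_lhs => rw [← hUd]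
      rw [Matrix.mulVec_transpose, ← dotProduct_comm, ← Matrix.dotProduct_mulVec, h1]
    rw [h4, Fin.sum_univ_succ]
    simp only [d, Fin.cons_zero, Fin.cons_succ]
    congr 1
    · ring
    · exact Finset.sum_congr rfl fun k _ => by ring

end Pool.Agent.V7H48.VF
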