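import Pool.Agent.V7H48.VF.Gram

/-! Families of extensions whose Gram matrix is unimodular. -/

set_option autoImplicit false
open Classical

namespace Pool.Agent.V7H48.VF

open Complex Filter Topology ComplexConjugate NumberField IsDedekindDomain Asymptotics
  Pool.Agent.W401.Cheb Pool.Agent.W540.BE Pool.Agent.W353.L1 Pool.Agent.W353.NF
open Pool.Agent.W353.EF (perm)
open Pool.Agent.TH322.BC
open Pool.Agent.TH322.BC.Edge (MinimalModels LSeries size HasOrder orders)
open Pool.Agent.Y722.EP (IsModular)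
open Pool.Agent.X288.L2
open Pool.Agent.V7H44.HF

section
variable {K : Type} [Field K] [NumberField K] {ι : Type} [Fintype ι] (L : ι → Type)
  [∀ j, Field (L j)] [∀ j, NumberField (L j)] [∀ j, Algebra K (L j)]

theorem form_eq {x m : ι → ℝ} (h : ∀ j, ∑ k, (cross K (L j) (L k) : ℝ) * x k = m j) :
    ∑ j, x j * m j = ∑ j, ∑ k, x j * x k * (cross K (L j) (L k) : ℝ) := by
  refine Finset.sum_congr rfl fun j _ => ?_
  rw [← h j, Finset.mul_sum]
  exact Finset.sum_congr rfl fun k _ => by ring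

/-- integral vectors and an invertible Gram matrix -/
theorem uni_vec (hdet : (gram K L).det ≠ 0) (m : ι → ℤ) :
    ∃ x : ι → ℝ, (∀ j, ∑ k, (cross K (L j) (L k) : ℝ) * x k = (m j : ℝ)) ∧
      (m ≠ 0 → 1 ≤ (|(gram K L).det| : ℤ) * ∑ j, x j * (m j : ℝ)) := by
  set D : ℤ := (gram K L).det with hD
  have h1 : (gram K L).mulVec ((gram K L).adjugate.mulVec m) = D • m := by
    rw [Matrix.mulVec_mulVec, Matrix.mul_adjugate, Matrix.smul_mulVec, Matrix.one_mulVec]
  set x' : ι → ℤ := (gram K L).adjugate.mulVec m with hx'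
  have hD' : (D : ℝ) ≠ 0 := by exact_mod_cast hdet
  have h2 : ∀ j, ∑ k, (cross K (L j) (L k) : ℝ) * ((x' k : ℝ) / D) = (m j : ℝ) := by
    intro j
    have h3 : ∑ k, gram K L j k * x' k = D * m j := congrFun h1 j
    have h4 : ∑ k, (cross K (L j) (L k) : ℝ) * (x' k : ℝ) = D * (m j : ℝ) := by
      have h5 : ((∑ k, gram K L j k * x' k : ℤ) : ℝ) = ((D * m j : ℤ) : ℝ) := by rw [h3]
      push_cast at h5
      rw [← h5]
      refine Finset.sum_congr rfl fun k _ => ?_
      unfold gram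
      push_cast
      rfl
    have h6 : ∑ k, (cross K (L j) (L k) : ℝ) * ((x' k : ℝ) / D) =
        (∑ k, (cross K (L j) (L k) : ℝ) * (x' k : ℝ)) / D := by
      rw [Finset.sum_div]
      exact Finset.sum_congr rfl fun k _ => by ring
    rw [h6, h4]
    field_simp
  refine ⟨fun k => (x' k : ℝ) / D, h2, fun hm => ?_⟩
  have h4 := form_eq (K := K) L (x := fun j => (x' j : ℝ) / D) (m := fun j => (m j : ℝ)) h2
  have h5 : 0 ≤ ∑ j, (x' j : ℝ) / D * (m j : ℝ) := by
    rw [h4]
    exact form_nonneg (K := K) L _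
  have h6 : ∑ j, (x' j : ℝ) / D * (m j : ℝ) ≠ 0 := by
    intro h0
    rw [h4] at h0
    refine hm (funext fun i => ?_)
    have h7 := form_zero (K := K) L h0 i
    rw [h2 i] at h7
    have h8 : m i = 0 := by exact_mod_cast h7
    exact h8
  have h9 : ∑ j, (x' j : ℝ) / D * (m j : ℝ) = ((∑ j, x' j * m j : ℤ) : ℝ) / D := by
    push_cast
    rw [Finset.sum_div]
    exact Finset.sum_congr rfl fun j _ => by ring
  have h10 : ((|D| : ℤ) : ℝ) * ∑ j, (x' j : ℝ) / D * (m j : ℝ) =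
      ((|∑ j, x' j * m j| : ℤ) : ℝ) := by
    rw [← abs_of_nonneg h5, h9, abs_div, Int.cast_abs, Int.cast_abs]
    field_simp
  rw [h10]
  have h11 : (∑ j, x' j * m j : ℤ) ≠ 0 := by
    intro h0
    rw [h9, h0] at h6
    simp at h6
  exact_mod_cast Int.one_le_abs h11

variable {a b : ℤ} (hab : 4 * a ^ 3 + 27 * b ^ 2 ≠ 0) (hmod : IsModular a b)

include hab hmod in
/-- **Families with an invertible Gram matrix**: finite sets of points. -/
theorem uni_card (hdet : (gram K L).det ≠ 0)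
    {V : ∀ j, HeightOneSpectrum (𝓞 (L j)) → WeierstrassCurve (𝓞 (L j))}
    (hV : ∀ j, MinimalModels (EC (L j) a b) (V j)) (T : Finset ℝ) (m : ℝ → ι → ℤ)
    (hm : ∀ τ ∈ T, ∀ j, HasOrder (V j) τ (m τ j)) (hm0 : ∀ τ ∈ T, m τ ≠ 0) :
    T.card ≤ (gram K L).det.natAbs * N4 K ∧
      (∀ τ ∈ T, τ ≠ 0 → 2 ≤ (gram K L).det.natAbs * N4 K) := by
  have hcast : (((|(gram K L).det| : ℤ)) : ℝ) = (((gram K L).det.natAbs : ℕ) : ℝ) := by
    rw [← Int.natCast_natAbs]
    exact Int.cast_natCast _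
  have hchoose : ∀ t ∈ T.image (fun τ => |τ|), ∃ τ ∈ T, |τ| = t := by
    intro t ht
    exact Finset.mem_image.1 ht
  choose! τ' hτ' hτ'' using hchoose
  have hx : ∀ t : ℝ, ∃ x : ι → ℝ,
      (∀ j, ∑ k, (cross K (L j) (L k) : ℝ) * x k = (m (τ' t) j : ℝ)) ∧
      (m (τ' t) ≠ 0 → 1 ≤ (|(gram K L).det| : ℤ) * ∑ j, x j * (m (τ' t) j : ℝ)) := fun t =>
    uni_vec (K := K) L hdet (m (τ' t))
  choose x hx1 hx2 using hx
  have main : ∀ H : Finset ℝ, H ⊆ T.image (fun τ => |τ|) →
      ∑ t ∈ H, (hw t t)⁻¹ ≤ (((gram K L).det.natAbs * N4 K : ℕ) : ℝ) := by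
    intro H hH
    have h1 := ellipsoid (K := K) L hab hmod hV H (fun t ht => by
      rw [← hτ'' t (hH ht)]
      exact abs_nonneg _) (fun j t => -(m (τ' t) j : ℝ)) (fun j t => -x t j)
      (fun t ht j => by
        have h2 := order_lim (K := K) hab (hV j) (hm (τ' t) (hτ' t (hH ht)) j)
        refine h2.congr fun ε => ?_
        conv_rhs => rw [← hτ'' t (hH ht)]
        exact (size_abs _ _ _).symm)
      (fun t ht j => by
        rw [← hx1 t j, ← Finset.sum_neg_distrib]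
        exact Finset.sum_congr rfl fun k _ => by ring)
    have h4 : ∑ t ∈ H, (hw t t)⁻¹ ≤ (((gram K L).det.natAbs : ℕ) : ℝ) *
        ∑ t ∈ H, (∑ j, -x t j * -(m (τ' t) j : ℝ)) / hw t t := by
      rw [Finset.mul_sum]
      refine Finset.sum_le_sum fun t ht => ?_
      rw [inv_eq_one_div, ← mul_div_assoc]
      refine div_le_div_of_nonneg_right ?_ (hw_self_pos t).le
      have h3 := hx2 t (hm0 _ (hτ' t (hH ht)))
      rw [hcast] at h3
      refine h3.trans (le_of_eq ?_)
      congr 1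
      refine Finset.sum_congr rfl fun j _ => ?_
      ring
    refine h4.trans ?_
    push_cast
    exact mul_le_mul_of_nonneg_left h1 (Nat.cast_nonneg _)
  constructor
  · have h1 := main _ (Finset.Subset.refl _)
    have h2 : ((T.card : ℕ) : ℝ) ≤ ∑ t ∈ T.image (fun τ => |τ|), (hw t t)⁻¹ := by
      rw [Finset.card_eq_sum_card_image (fun τ => |τ|) T]
      push_cast
      exact Finset.sum_le_sum fun t _ => card_abs_le T t
    exact_mod_cast h2.trans h1
  · intro τ hτ h0
    have h1 := main {|τ|} (by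
      rw [Finset.singleton_subset_iff]
      exact Finset.mem_image_of_mem _ hτ)
    rw [Finset.sum_singleton, hw_self, if_neg (abs_ne_zero.2 h0)] at h1
    have h2 : ((1 / 2 : ℝ))⁻¹ = 2 := by norm_num
    rw [h2] at h1
    exact_mod_cast h1

include hab hmod in
/-- **Families with an invertible Gram matrix**. -/
theorem uni_encard (hdet : (gram K L).det ≠ 0)
    {V : ∀ j, HeightOneSpectrum (𝓞 (L j)) → WeierstrassCurve (𝓞 (L j))}
    (hV : ∀ j, MinimalModels (EC (L j) a b) (V j)) :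
    {τ : ℝ | ∃ m : ι → ℤ, (∀ j, HasOrder (V j) τ (m j)) ∧ m ≠ 0}.encard ≤
      ((gram K L).det.natAbs * N4 K : ℕ) ∧
    ((gram K L).det.natAbs * N4 K < 2 → ∀ τ : ℝ, τ ≠ 0 → ∀ m : ι → ℤ,
      (∀ j, HasOrder (V j) τ (m j)) → m = 0) := by
  set A : Set ℝ := {τ : ℝ | ∃ m : ι → ℤ, (∀ j, HasOrder (V j) τ (m j)) ∧ m ≠ 0} with hA
  have hA' : ∀ τ : ℝ, τ ∈ A → ∃ m : ι → ℤ, (∀ j, HasOrder (V j) τ (m j)) ∧ m ≠ 0 :=
    fun τ h => h
  choose! m hm hm0 using hA'
  have hfin : ∀ T : Finset ℝ, (T : Set ℝ) ⊆ A → T.card ≤ (gram K L).det.natAbs * N4 K :=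
    fun T hT => (uni_card (K := K) L hab hmod hdet hV T m (fun τ hτ => hm τ (hT hτ))
      (fun τ hτ => hm0 τ (hT hτ))).1
  constructor
  · by_contra hcon
    push Not at hcon
    have h7 : (((gram K L).det.natAbs * N4 K + 1 : ℕ) : ℕ∞) ≤ A.encard := by
      rw [Nat.cast_add, Nat.cast_one]
      exact Order.add_one_le_of_lt hcon
    obtain ⟨B, hBA, hB⟩ := Set.exists_subset_encard_eq h7
    have hBf : B.Finite := by
      refine Set.finite_of_encard_eq_coe hB
    have h8 := hfin hBf.toFinset (by rw [hBf.coe_toFinset]; exact hBA)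
    have h9 : ((hBf.toFinset.card : ℕ) : ℕ∞) = B.encard := by
      rw [hBf.encard_eq_coe_toFinset_card]
    rw [hB] at h9
    have h10 : hBf.toFinset.card = (gram K L).det.natAbs * N4 K + 1 := by exact_mod_cast h9
    omega
  · intro hN τ hτ m' hm'
    by_contra hne
    have h1 := (uni_card (K := K) L hab hmod hdet hV {τ} (fun _ => m') (fun t ht j => by
      rw [Finset.mem_singleton.1 ht]
      exact hm' j) (fun _ _ => hne)).2 τ (Finset.mem_singleton_self _) hτ
    omega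

end

end Pool.Agent.V7H48.VF
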